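import Pool.Agent.Run7.h413.FN.Arith
import Pool.Agent.Y638.RF.Xor

set_option autoImplicit false

/-! # Products `u_iᵀ M v_i`, Boolean and over `ZMod 2` -/

namespace Run7.h413.FN.OMv

open Finset Pool.Agent.TH697.Form Pool.Agent.TH697.Row
open Pool.Agent.Y638.RF (Asks)

variable {n c w t g : ℕ}

/-- The pairs of vectors. -/
def pairs (n : ℕ) : Finset (Option (Fin n)) := (univ : Finset (Fin n)).map Function.Embedding.some

/-- the arithmetic -/
theorem arith {n c w t l r s : ℝ} (hn : 32 ≤ n) (hc : 1 ≤ c) (hw : 1 ≤ w) (ht : 0 ≤ t)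
    (hl0 : 1 ≤ l) (hr : 0 ≤ r) (hs : 0 ≤ s)
    (h : n * ((49 / 600 - 0) * n ^ 2 - 1) ≤
      (2 * (t + 1) * (6 * l + r) + (w - 1) * c) * s) :
    n ^ 3 ≤ 150 * (w * c + (t + 1) * (l + r)) * s := by
  have h0 : 1024 ≤ n ^ 2 := by nlinarith
  have h1 : 2 / 25 * n ^ 2 ≤ (49 / 600 - 0) * n ^ 2 - 1 := by linarith
  have h2 : n * (2 / 25 * n ^ 2) ≤ n * ((49 / 600 - 0) * n ^ 2 - 1) :=
    mul_le_mul_of_nonneg_left h1 (by positivity)
  have hW : (w - 1) * c ≤ 12 * (w * c) := by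
    have h4 : (w - 1) * c ≤ w * c :=
      mul_le_mul_of_nonneg_right (by linarith) (by positivity)
    have h6 : 0 ≤ w * c := by positivity
    linarith
  have hT : 2 * (t + 1) * (6 * l + r) ≤ 12 * ((t + 1) * (l + r)) := by
    have h6 : 0 ≤ (t + 1) * r := by positivity
    nlinarith
  have h3 : (2 * (t + 1) * (6 * l + r) + (w - 1) * c) * s ≤
      12 * (w * c + (t + 1) * (l + r)) * s :=
    mul_le_mul_of_nonneg_right (by linarith) hs
  have e1 : n * (2 / 25 * n ^ 2) = 2 / 25 * n ^ 3 := by ring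
  rw [e1] at h2
  have h5 : 0 ≤ (w * c + (t + 1) * (l + r)) * s := by positivity
  nlinarith

theorem bound_of {D : Option (Fin n) → Type} (f : (∀ i, D i) → Bool)
    (hasks : ∀ i : Fin n, Asks (Fin n × Fin n) (n ^ 2) 0 (fun _ => True) f (some i))
    (hn : 32 ≤ n) (hc : 1 ≤ c) (hw : 1 ≤ w) (hg : 1 ≤ g) {K : Type} [Field K]
    {Ω : Type} [Fintype Ω]
    (μ : Ω → ℝ) (hμ : IsProb μ) (s : ℕ) (C : Ω → Net K (Option (Fin n)) D w (2 ^ c))
    (hT : ∀ ω, (C ω).TestDepthLE t) (hG : ∀ ω, (C ω).DegreeLE g)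
    (hs : ∀ ω, (C ω).cost (pairs n) ≤ s)
    (hF : ApproximatesOn μ (fun ω => (C ω).eval) (fun _ => True) f) :
    (n : ℝ) ^ 3 ≤ 150 * (w * c + (t + 1) * (Real.logb 2 n + Real.logb 2 g)) * s := by
  classical
  have hw' : (1 : ℝ) ≤ w := by exact_mod_cast hw
  have hc' : (1 : ℝ) ≤ c := by exact_mod_cast hc
  have ht' : (0 : ℝ) ≤ t := Nat.cast_nonneg t
  have hs0 : (0 : ℝ) ≤ s := Nat.cast_nonneg s
  have hn' : (32 : ℝ) ≤ n := by exact_mod_cast hn
  have hl1 := one_le_logb (n := n) (by omega)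
  have hr := logb_nonneg hg
  by_cases hsn : n ^ 3 ≤ s
  · have h1 : (n : ℝ) ^ 3 ≤ s := by exact_mod_cast hsn
    have h2 : (1 : ℝ) ≤ w * c := by nlinarith
    have h4 : 0 ≤ ((t : ℝ) + 1) * (Real.logb 2 n + Real.logb 2 g) := by positivity
    have h3 : (1 : ℝ) ≤ 150 * (w * c + (t + 1) * (Real.logb 2 n + Real.logb 2 g)) := by linarith
    nlinarith
  have hM : n ^ 2 * s + 1 ≤ n ^ 6 := by
    have h1 : s ≤ n ^ 3 := by omega
    have h2 : n ^ 2 * s ≤ n ^ 2 * n ^ 3 := Nat.mul_le_mul_left _ h1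
    have h3 : n ^ 2 * n ^ 3 = n ^ 5 := by ring
    have h5 : 32 * n ^ 5 ≤ n ^ 6 := by
      calc 32 * n ^ 5 ≤ n * n ^ 5 := Nat.mul_le_mul_right _ hn
        _ = n ^ 6 := by ring
    have h6 : 1 ≤ n ^ 5 := Nat.one_le_pow _ _ (by omega)
    omega
  have h := net_lower μ hμ s C (fun _ => True) f hF Nat.one_le_two_pow hw t g hg hT hG (n ^ 2)
    (n ^ 6) hM 0 (pairs n) hs (T := Fin n × Fin n) (by
      intro a ha
      unfold pairs at ha
      rw [mem_map] at ha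
      obtain ⟨i, -, rfl⟩ := ha
      exact hasks i)
  unfold pairs at h
  rw [card_map, card_univ, Fintype.card_fin, Pool.Agent.TH457.Ary.OuMv.card_T] at h
  push_cast at h
  rw [Pool.Agent.TH457.Ary.OuMv.logb_two_pow', Real.logb_pow] at h
  push_cast at h
  exact arith hn' hc' hw' ht' hl1 hr hs0 h

end Run7.h413.FN.OMv
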