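import Pool.Agent.Run7.h413.FN.Core
import Pool.Agent.Run7.h413.FN.OMv

set_option autoImplicit false

/-! # Networks with two layers of symmetric gates, and the upper bound -/

namespace Run7.h413.FN

open Finset
open Pool.Agent.N452.TF (Leaf)

variable {K : Type} [Field K] {ι : Type} {D : ι → Type} {w q : ℕ}

theorem Net.dep_iff (C : Net K ι D w q) (i : ι) (a : C.Node) : C.Dep i a ↔
    (C.gate a).Sees i ∨ ∃ b ∈ (C.gate a).inputs, C.Dep i b := by
  constructor
  · rintro (h | ⟨hb, h⟩)
    · exact Or.inl h
    · exact Or.inr ⟨_, hb, h⟩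
  · rintro (h | ⟨b, hb, h⟩)
    · exact .leaf h
    · exact .wire hb h

/-- The cost, if no node but the output depends on more than one item. -/
theorem Net.cost_le (C : Net K ι D w q) (I : Finset ι) (l : C.Node → ℕ)
    (h1 : ∀ (a : C.Node) (J : Finset ι), J ⊆ I → (∀ i ∈ J, (C.gate a).Sees i) → J.card ≤ l a)
    (h2 : ∀ a, ∀ b ∈ (C.gate a).inputs, ∀ J : Finset ι, J ⊆ I → (∀ i ∈ J, C.Dep i b) →
      J.card ≤ 1) :
    C.cost I ≤ ∑ a, (l a + (C.gate a).inputs.card) := by
  classical
  unfold Net.cost Net.traffic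
  rw [sum_comm]
  refine sum_le_sum fun a _ => ?_
  unfold Net.rd
  rw [sum_add_distrib]
  refine add_le_add ?_ ?_
  · rw [← card_filter]
    exact h1 a _ (filter_subset _ _) fun i hi => (mem_filter.1 hi).2
  · have e : ∀ i ∈ I, ((C.gate a).inputs.filter (fun b => C.Dep i b)).card =
        ∑ b ∈ (C.gate a).inputs, if C.Dep i b then 1 else 0 := fun i _ => card_filter _ _
    rw [sum_congr rfl e, sum_comm, card_eq_sum_ones]
    refine sum_le_sum fun b hb => ?_
    rw [← card_filter]
    exact h2 a b hb _ (filter_subset _ _) fun i hi => (mem_filter.1 hi).2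

section

variable {A P : Type} [Fintype A] [DecidableEq A] [Fintype P] [DecidableEq P]

theorem inj_mid : Function.Injective (fun a : A => (Sum.inr (Sum.inl a) : Unit ⊕ (A ⊕ A × P))) :=
  fun p p' hp => by simpa using hp

theorem inj_leaf (a : A) :
    Function.Injective (fun p : P => (Sum.inr (Sum.inr (a, p)) : Unit ⊕ (A ⊕ A × P))) :=
  fun p p' hp => by simpa using hp

/-- Two layers of symmetric gates. -/
def two (L : A → P → Leaf ι D w q K) (g h : ℕ → K) : Net K ι D w q where
  Node := Unit ⊕ (A ⊕ A × P)
  fin := inferInstance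
  dec := inferInstance
  gate := fun a => match a with
    | .inl _ => .sym (univ.image (fun a => .inr (.inl a))) g
    | .inr (.inl a) => .sym (univ.image (fun p => .inr (.inr (a, p)))) h
    | .inr (.inr (a, p)) => .leaf (L a p)
  lev := fun a => match a with
    | .inl _ => 2
    | .inr (.inl _) => 1
    | .inr (.inr _) => 0
  lt := by
    rintro (u | a | ⟨a, p⟩) b hb
    · simp only [Gate.inputs, mem_image, mem_univ, true_and] at hb
      obtain ⟨a, rfl⟩ := hb
      norm_num
    · simp only [Gate.inputs, mem_image, mem_univ, true_and] at hb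
      obtain ⟨p, rfl⟩ := hb
      norm_num
    · simp [Gate.inputs] at hb
  out := .inl ()

variable (L : A → P → Leaf ι D w q K) (g h : ℕ → K)

theorem two_tests : (two L g h).TestDepthLE 2 := by
  refine ⟨(two L g h).lev, ?_, fun a b hb => ((two L g h).lt a b hb).le, fun a S k hg b hb => ?_⟩
  · rintro (u | a | ⟨a, p⟩)
    · exact le_rfl
    · exact (by norm_num : (1 : ℕ) ≤ 2)
    · exact Nat.zero_le 2
  · refine (two L g h).lt a b ?_
    rw [hg]
    exact hb

theorem two_degree : (two L g h).DegreeLE 1 := by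
  refine ⟨fun _ => 1, fun _ => ⟨le_rfl, le_rfl⟩, fun _ _ _ _ _ _ _ => le_rfl, ?_⟩
  rintro (u | a | ⟨a, p⟩) b c hg
  · cases hg
  · cases hg
  · cases hg

theorem two_leaf (x : ∀ i, D i) (a : A) (p : P) :
    (two L g h).val x (.inr (.inr (a, p))) = (L a p).val x := by
  rw [Net.val_eq]
  rfl

open Classical in
theorem two_mid (x : ∀ i, D i) (a : A) : (two L g h).val x (.inr (.inl a)) =
    h (univ.filter (fun p => (L a p).val x ≠ 0)).card := by
  rw [Net.val_eq]
  have e : (two L g h).gate (.inr (.inl a)) = .sym (univ.image (fun p => .inr (.inr (a, p)))) h :=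
    rfl
  rw [e]
  simp only [Gate.eval]
  congr 1
  rw [filter_image]
  refine (card_image_of_injective _ (inj_leaf (A := A) a)).trans ?_
  simp only [two_leaf]

open Classical in
theorem two_out (x : ∀ i, D i) : (two L g h).val x (two L g h).out =
    g (univ.filter (fun a => h (univ.filter (fun p => (L a p).val x ≠ 0)).card ≠ 0)).card := by
  rw [Net.val_eq]
  have e : (two L g h).gate (two L g h).out = .sym (univ.image (fun a => .inr (.inl a))) g :=
    rfl
  rw [e]
  simp only [Gate.eval]
  congr 1
  rw [filter_image]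
  refine (card_image_of_injective _ (inj_mid (A := A) (P := P))).trans ?_
  simp only [two_mid]

theorem two_dep_leaf {i : ι} {a : A} {p : P} (hd : (two L g h).Dep i (.inr (.inr (a, p)))) :
    (L a p).Sees {i} := by
  rw [Net.dep_iff] at hd
  rcases hd with h | ⟨b, hb, -⟩
  · exact h
  · have : (two L g h).gate (.inr (.inr (a, p))) = .leaf (L a p) := rfl
    rw [this] at hb
    simp [Gate.inputs] at hb

theorem two_dep_mid {i : ι} {a : A} (hd : (two L g h).Dep i (.inr (.inl a))) :
    ∃ p, (L a p).Sees {i} := by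
  rw [Net.dep_iff] at hd
  rcases hd with h | ⟨b, hb, hd⟩
  · exact h.elim
  · have : (two L g h).gate (.inr (.inl a)) =
      .sym (univ.image (fun p => .inr (.inr (a, p)))) h := rfl
    rw [this] at hb
    simp only [Gate.inputs, mem_image, mem_univ, true_and] at hb
    obtain ⟨p, rfl⟩ := hb
    exact ⟨p, two_dep_leaf L g h hd⟩

theorem two_cost (I : Finset ι) (it : A → ι) (hL : ∀ a p, ∀ i ∈ I, (L a p).Sees {i} → i = it a) :
    (two L g h).cost I ≤ 2 * Fintype.card A * Fintype.card P + Fintype.card A := by
  classical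
  have hone : ∀ (J : Finset ι) (i0 : ι), (∀ i ∈ J, i = i0) → J.card ≤ 1 := fun J i0 hJ =>
    card_le_one.2 fun i hi j hj => (hJ i hi).trans (hJ j hj).symm
  refine (Net.cost_le (two L g h) I (fun a => match a with
    | .inl _ => 0
    | .inr (.inl _) => 0
    | .inr (.inr _) => 1) ?_ ?_).trans (le_of_eq ?_)
  · rintro (u | a | ⟨a, p⟩) J hJ hJ2
    · simp only [Nat.le_zero, card_eq_zero]
      exact eq_empty_of_forall_notMem fun i hi => hJ2 i hi
    · simp only [Nat.le_zero, card_eq_zero]
      exact eq_empty_of_forall_notMem fun i hi => hJ2 i hi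
    · exact hone J (it a) fun i hi => hL a p i (hJ hi) (hJ2 i hi)
  · rintro (u | a | ⟨a, p⟩) b hb J hJ hJ2
    · have : (two L g h).gate (.inl u) = .sym (univ.image (fun a => .inr (.inl a))) g := rfl
      rw [this] at hb
      simp only [Gate.inputs, mem_image, mem_univ, true_and] at hb
      obtain ⟨a, rfl⟩ := hb
      refine hone J (it a) fun i hi => ?_
      obtain ⟨p, hp⟩ := two_dep_mid L g h (hJ2 i hi)
      exact hL a p i (hJ hi) hp
    · have : (two L g h).gate (.inr (.inl a)) =
        .sym (univ.image (fun p => .inr (.inr (a, p)))) h := rfl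
      rw [this] at hb
      simp only [Gate.inputs, mem_image, mem_univ, true_and] at hb
      obtain ⟨p, rfl⟩ := hb
      exact hone J (it a) fun i hi => hL a p i (hJ hi) (two_dep_leaf L g h (hJ2 i hi))
    · have : (two L g h).gate (.inr (.inr (a, p))) = .leaf (L a p) := rfl
      rw [this] at hb
      simp [Gate.inputs] at hb
  · have e1 : ∀ u : Unit, ((two L g h).gate (.inl u)).inputs.card = Fintype.card A := by
      intro u
      have : (two L g h).gate (.inl u) = .sym (univ.image (fun a => .inr (.inl a))) g := rfl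
      rw [this]
      simp only [Gate.inputs]
      exact (card_image_of_injective _ (inj_mid (A := A) (P := P))).trans card_univ
    have e2 : ∀ a : A, ((two L g h).gate (.inr (.inl a))).inputs.card = Fintype.card P := by
      intro a
      have : (two L g h).gate (.inr (.inl a)) =
        .sym (univ.image (fun p => .inr (.inr (a, p)))) h := rfl
      rw [this]
      simp only [Gate.inputs]
      exact (card_image_of_injective _ (inj_leaf (A := A) a)).trans card_univ
    have e3 : ∀ p : A × P, ((two L g h).gate (.inr (.inr p))).inputs.card = 0 := by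
      rintro ⟨a, p⟩
      rfl
    rw [show (∑ a : (two L g h).Node, _) = ∑ a : Unit ⊕ (A ⊕ A × P), _ from rfl,
      Fintype.sum_sum_type, Fintype.sum_sum_type]
    simp only [e1, e2, e3, sum_const, card_univ, Fintype.card_unit, Fintype.card_prod, smul_eq_mul]
    ring

end

end Run7.h413.FN

namespace Run7.h413.FN.OMv

open Finset
open Pool.Agent.N452.TF (Leaf Word)

variable {n c : ℕ}

/-- the leaves see one pair only -/
theorem word_sees {D : Option (Fin n) → Type} {w q : ℕ} {K : Type} (τ : Word (Option (Fin n)) D w q K)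
    (i0 : Fin n) (h : ∀ k, τ.item k = some i0 ∨ τ.item k = none) (i : Option (Fin n))
    (hi : i ∈ pairs n) (hs : (Leaf.word τ).Sees {i}) : i = some i0 := by
  obtain ⟨k, hk⟩ := hs
  have hk' : τ.item k = i := hk
  rcases h k with h1 | h1
  · rw [← hk', h1]
  · exfalso
    unfold pairs at hi
    rw [mem_map] at hi
    obtain ⟨j, -, hj⟩ := hi
    rw [← hj, h1] at hk'
    cases hk'

section

open Pool.Agent.Y638.RF.Xor (Item product part cut sum_cut sum_eq_card part_eval)

open Classical in
/-- the leaf for a part of a row -/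
noncomputable def xleaf (K : Type) [Field K] (n c : ℕ) (i : Fin n) (p : Fin n × Fin (n / c + 1)) :
    Leaf (Option (Fin n)) (Item n) 2 (2 ^ (c + 1)) K :=
  .word ⟨(part n c i p.1 p.2).item, (part n c i p.1 p.2).view,
    fun e => if (part n c i p.1 p.2).out e = 1 then 1 else 0⟩

variable (K : Type) [Field K]

theorem xleaf_ne (i : Fin n) (p : Fin n × Fin (n / c + 1)) (x : ∀ i, Item n i) :
    (xleaf K n c i p).val x ≠ 0 ↔
      (x (some i)).1 p.1 * ∑ l, cut c (x none p.1) p.2 l * cut c (x (some i)).2 p.2 l = 1 := by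
  have h := part_eval (n := n) (c := c) i p.1 p.2 x
  have e : (xleaf K n c i p).val x =
      if (Pool.Agent.Y638.RF.Fml.word (part n c i p.1 p.2)).eval x = 1 then 1 else 0 := rfl
  rw [e, h]
  split_ifs with h2 h3 h3
  · simp [h2]
  · exact absurd rfl h3
  · exact absurd h3 (by norm_num)
  · simp [h2]

/-- multiplication by words of length `c` -/
theorem xor_upper (n : ℕ) (hc : 1 ≤ c) :
    ∃ C : Net K (Option (Fin n)) (Item n) 2 (2 ^ (c + 1)), C.TestDepthLE 2 ∧ C.DegreeLE 1 ∧
      C.cost (pairs n) ≤ 2 * n ^ 2 * (n / c + 1) + n ∧ ∀ x, C.eval x = product n x := by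
  classical
  refine ⟨two (xleaf K n c) (fun k => if k = 0 then 0 else 1)
    (fun k => if k % 2 = 1 then 1 else 0), two_tests _ _ _, two_degree _ _ _, ?_, fun x => ?_⟩
  · refine (two_cost (xleaf K n c) _ _ (pairs n) some fun i p i' hi' hs =>
      word_sees _ i (fun k => ?_) i' hi' hs).trans (le_of_eq ?_)
    · fin_cases k
      · exact Or.inl rfl
      · exact Or.inr rfl
    · rw [Fintype.card_prod, Fintype.card_fin, Fintype.card_fin]
      ring
  · unfold Net.eval product
    rw [two_out]
    apply decide_eq_decide.2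
    have h0 : ∀ m : ℕ, (if m = 0 then (0 : K) else 1) ≠ 0 ↔ 0 < m := by
      intro m
      split_ifs with h
      · simp [h]
      · simp only [ne_eq, one_ne_zero, not_false_iff, true_iff]
        omega
    rw [h0, card_pos]
    simp only [xleaf_ne]
    have h1 : ∀ i : Fin n, ((if (univ.filter (fun p : Fin n × Fin (n / c + 1) =>
        (x (some i)).1 p.1 * ∑ l, cut c (x none p.1) p.2 l *
          cut c (x (some i)).2 p.2 l = 1)).card % 2 = 1 then (1 : K) else 0) ≠ 0) ↔
        ∑ j : Fin n, ∑ k : Fin n, (x (some i)).1 j * (x none) j k * (x (some i)).2 k = 1 := by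
      intro i
      have h3 : ∑ j : Fin n, ∑ k : Fin n, (x (some i)).1 j * (x none) j k * (x (some i)).2 k =
          ∑ p : Fin n × Fin (n / c + 1), (x (some i)).1 p.1 *
            ∑ l, cut c (x none p.1) p.2 l * cut c (x (some i)).2 p.2 l := by
        rw [Fintype.sum_prod_type]
        refine sum_congr rfl fun j _ => ?_
        simp only
        rw [← mul_sum, sum_cut hc, mul_sum]
        exact sum_congr rfl fun k _ => mul_assoc _ _ _
      rw [h3, sum_eq_card]
      obtain ⟨N, hN⟩ : ∃ N, N = (univ.filter (fun p : Fin n × Fin (n / c + 1) =>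
        (x (some i)).1 p.1 * ∑ l, cut c (x none p.1) p.2 l *
          cut c (x (some i)).2 p.2 l = 1)).card := ⟨_, rfl⟩
      rw [← hN]
      have h5 : (N : ZMod 2) = 1 ↔ N % 2 = 1 := by
        have := ZMod.natCast_eq_natCast_iff' N 1 2
        simpa using this
      rw [h5]
      split_ifs with h <;> simp [h]
    constructor
    · rintro ⟨i, hi⟩
      rw [mem_filter] at hi
      exact ⟨i, (h1 i).1 hi.2⟩
    · rintro ⟨i, hi⟩
      exact ⟨i, mem_filter.2 ⟨mem_univ _, (h1 i).2 hi⟩⟩

end

end Run7.h413.FN.OMv
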