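import Pool.Agent.Run7.h413.FN.Lower

set_option autoImplicit false

/-! # Arithmetic for the applications -/

namespace Run7.h413.FN

theorem one_le_logb {n : ℕ} (hn : 2 ≤ n) : (1 : ℝ) ≤ Real.logb 2 n := by
  rw [Real.le_logb_iff_rpow_le (by norm_num) (by exact_mod_cast (by omega : 0 < n)), Real.rpow_one]
  exact_mod_cast hn

theorem logb_nonneg {n : ℕ} (hn : 1 ≤ n) : (0 : ℝ) ≤ Real.logb 2 n :=
  Real.logb_nonneg (by norm_num) (by exact_mod_cast hn)

theorem natLog_le {n : ℕ} (hn : 1 ≤ n) : (Nat.log 2 n : ℝ) ≤ Real.logb 2 n := by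
  have h1 : 2 ^ Nat.log 2 n ≤ n := Nat.pow_log_le_self 2 (by omega)
  rw [Real.le_logb_iff_rpow_le (by norm_num) (by exact_mod_cast hn)]
  rw [Real.rpow_natCast]
  exact_mod_cast h1

end Run7.h413.FN
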