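import Pool.Agent.Run7.h413.FN.Defs
import Pool.Agent.N452.TF.Core
import Pool.Agent.Y350.DGF.Zero

set_option autoImplicit false

/-! # Few subfunctions of networks over a field whose gates share values -/

namespace Run7.h413.FN

open Finset MvPolynomial
open Pool.Agent.N452.TF (Leaf ovr ovr_of_mem ovr_of_not)

variable {K : Type} [Field K] {ι : Type} {D : ι → Type} {w q : ℕ}

theorem Gate.eval_congr {N : Type} [DecidableEq N] (g : Gate K ι D w q N) (x : ∀ i, D i)
    {v v' : N → K} (h : ∀ b ∈ g.inputs, v b = v' b) : g.eval x v = g.eval x v' := by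
  classical
  cases g with
  | leaf L => rfl
  | lin S a c =>
    simp only [Gate.eval]
    congr 1
    exact sum_congr rfl fun b hb => by rw [h b hb]
  | mul a b =>
    simp only [Gate.eval]
    rw [h a (by simp [Gate.inputs]), h b (by simp [Gate.inputs])]
  | sym S k =>
    simp only [Gate.eval]
    have e : S.filter (fun b => v b ≠ 0) = S.filter (fun b => v' b ≠ 0) :=
      filter_congr fun b hb => by rw [h b hb]
    exact congrArg (fun T : Finset N => k T.card) (by convert e)

namespace Net

theorem val_eq (C : Net K ι D w q) (x : ∀ i, D i) (a : C.Node) :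
    C.val x a = (C.gate a).eval x (C.val x) := by
  rw [val]
  exact Gate.eval_congr _ _ fun b hb => dif_pos (C.lt a b hb)

/-- A leaf which does not see the item `i`. -/
theorem leaf_update [DecidableEq ι] (L : Leaf ι D w q K) (i : ι) (h : ¬ L.Sees {i}) (e : D i)
    (z : ∀ i, D i) : L.val (Function.update z i e) = L.val z := by
  have e1 : Function.update z i e = ovr {i} (Function.update z i e) z := by
    funext a
    by_cases ha : a ∈ ({i} : Set ι)
    · rw [ovr_of_mem ha]
    · rw [ovr_of_not ha]
      exact Function.update_of_ne ha _ _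
  rw [e1]
  exact L.val_ovr {i} h _ _

/-- Nodes which do not depend on an item. -/
theorem val_of_not_dep [DecidableEq ι] (C : Net K ι D w q) (i : ι) (e : D i) (z : ∀ i, D i) :
    ∀ (k : ℕ) (a : C.Node), C.lev a < k → ¬ C.Dep i a →
      C.val (Function.update z i e) a = C.val z a
  | 0, a, h, _ => by omega
  | k + 1, a, h, ha => by
      have h1 : ∀ b ∈ (C.gate a).inputs, C.val (Function.update z i e) b = C.val z b := fun b hb =>
        val_of_not_dep C i e z k b (by have := C.lt a b hb; omega) fun hd => ha (.wire hb hd)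
      rw [val_eq, val_eq, Gate.eval_congr _ _ h1]
      cases hg : C.gate a with
      | leaf L =>
        simp only [Gate.eval]
        refine leaf_update L i (fun hs => ha (.leaf ?_)) e z
        rw [hg]
        exact hs
      | lin S a c => rfl
      | mul a b => rfl
      | sym S k => rfl

theorem rd_pos {C : Net K ι D w q} {i : ι} {a : C.Node} (h : C.Dep i a) : 1 ≤ C.rd i a := by
  classical
  unfold rd
  cases h with
  | leaf h => rw [if_pos h]; omega
  | wire hb hd =>
    have : 0 < ((C.gate a).inputs.filter (fun b => C.Dep i b)).card :=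
      card_pos.2 ⟨_, mem_filter.2 ⟨hb, hd⟩⟩
    have h2 := Nat.zero_le (if (C.gate a).Sees i then 1 else 0)
    convert Nat.le_add_left_of_le (k := if (C.gate a).Sees i then 1 else 0) this using 1

section

variable (C : Net K ι D w q) (i : ι)

open Classical in
/-- the nodes which depend on the item -/
noncomputable def deps : Finset C.Node := univ.filter (fun a => C.Dep i a)

theorem mem_deps {a : C.Node} : a ∈ C.deps i ↔ C.Dep i a := by
  classical
  unfold deps
  rw [mem_filter]
  exact ⟨fun h => h.2, fun h => ⟨mem_univ _, h⟩⟩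

open Classical in
/-- the inputs which depend on the item -/
noncomputable def din (a : C.Node) : Finset C.Node :=
  (C.gate a).inputs.filter (fun b => C.Dep i b)

theorem card_din_le (a : C.Node) : (C.din i a).card ≤ C.rd i a := by
  unfold din rd
  exact Nat.le_add_left _ _

/-- the parameters -/
noncomputable def ix : Finset (Σ _ : C.Node, ℕ) :=
  (C.deps i).sigma (fun a => range (C.rd i a + 1))

theorem mem_ix {a : C.Node} {j : ℕ} :
    (⟨a, j⟩ : Σ _ : C.Node, ℕ) ∈ C.ix i ↔ C.Dep i a ∧ j < C.rd i a + 1 := by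
  unfold ix
  rw [mem_sigma, mem_deps, mem_range]

theorem sum_deps_le (f : C.Node → ℕ) (hf : ∀ a, C.Dep i a → f a ≤ 2 * C.rd i a) :
    ∑ a ∈ C.deps i, f a ≤ 2 * C.traffic i := by
  calc ∑ a ∈ C.deps i, f a ≤ ∑ a ∈ C.deps i, 2 * C.rd i a :=
        sum_le_sum fun a ha => hf a ((C.mem_deps i).1 ha)
    _ ≤ ∑ a, 2 * C.rd i a := sum_le_sum_of_subset (subset_univ _)
    _ = _ := by
        rw [← mul_sum]
        rfl

theorem card_ix_le : (C.ix i).card ≤ 2 * C.traffic i := by
  unfold ix
  rw [card_sigma]
  refine C.sum_deps_le i _ fun a ha => ?_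
  rw [card_range]
  have := rd_pos ha
  omega

theorem card_deps_le : (C.deps i).card ≤ C.traffic i := by
  calc (C.deps i).card = ∑ _a ∈ C.deps i, 1 := by rw [card_eq_sum_ones]
    _ ≤ ∑ a ∈ C.deps i, C.rd i a := sum_le_sum fun a ha => rd_pos ((C.mem_deps i).1 ha)
    _ ≤ ∑ a, C.rd i a := sum_le_sum_of_subset (subset_univ _)

/-- a parameter of the node `a` -/
noncomputable def par (θ : C.ix i → K) (a : C.Node) (j : ℕ) : K :=
  if h : (⟨a, j⟩ : Σ _ : C.Node, ℕ) ∈ C.ix i then θ ⟨_, h⟩ else 0

/-- a parameter of the node `a` as a polynomial -/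
noncomputable def pX (a : C.Node) (j : ℕ) : MvPolynomial (C.ix i) K :=
  if h : (⟨a, j⟩ : Σ _ : C.Node, ℕ) ∈ C.ix i then X ⟨_, h⟩ else 0

theorem eval_pX (θ : C.ix i → K) (a : C.Node) (j : ℕ) :
    MvPolynomial.eval θ (C.pX i a j) = C.par i θ a j := by
  unfold pX par
  split_ifs with h
  · exact eval_X _
  · exact map_zero _

theorem degree_pX (a : C.Node) (j : ℕ) : (C.pX i a j).totalDegree ≤ 1 := by
  unfold pX
  split_ifs with h
  · exact (totalDegree_X _).le
  · rw [totalDegree_zero]
    omega

variable {Y : Type}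

open Classical in
/-- the value of the node `a` as a polynomial, from those of the inputs -/
noncomputable def res (l : C.Node → Y → K) (σ : C.Node → Y → Bool) (u : Y) (a : C.Node)
    (Q : C.Node → MvPolynomial (C.ix i) K) : MvPolynomial (C.ix i) K :=
  match C.gate a with
  | .leaf _ => MvPolynomial.C (l a u)
  | .lin S c _ => C.pX i a 0 + ∑ b ∈ S.filter (fun b => C.Dep i b), MvPolynomial.C (c b) * Q b
  | .mul b c => (if C.Dep i b then Q b else C.pX i a 0) *
      (if C.Dep i c then Q c else C.pX i a 0)
  | .sym S _ => C.pX i a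
      ((S.filter (fun b => C.Dep i b)).filter (fun b => σ b u = true)).card

theorem res_congr (l : C.Node → Y → K) (σ : C.Node → Y → Bool) (u : Y) (a : C.Node)
    {Q Q' : C.Node → MvPolynomial (C.ix i) K} (h : ∀ b ∈ (C.gate a).inputs, Q b = Q' b) :
    C.res i l σ u a Q = C.res i l σ u a Q' := by
  classical
  unfold res
  cases hg : C.gate a with
  | leaf L => rfl
  | lin S c e =>
    simp only
    congr 1
    refine sum_congr rfl fun b hb => ?_
    rw [h b (by rw [hg]; exact (mem_filter.1 hb).1)]
  | mul b c =>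
    simp only
    rw [h b (by rw [hg]; simp [Gate.inputs]), h c (by rw [hg]; simp [Gate.inputs])]
  | sym S k => rfl

/-- the value of the node `a` as a polynomial -/
noncomputable def poly (C : Net K ι D w q) (i : ι) {Y : Type} (l : C.Node → Y → K)
    (σ : C.Node → Y → Bool) (u : Y) (a : C.Node) : MvPolynomial (C.ix i) K :=
  C.res i l σ u a (fun b => if _ : C.lev b < C.lev a then C.poly i l σ u b else 0)
termination_by C.lev a

theorem poly_eq (l : C.Node → Y → K) (σ : C.Node → Y → Bool) (u : Y) (a : C.Node) :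
    C.poly i l σ u a = C.res i l σ u a (C.poly i l σ u) := by
  rw [poly]
  exact C.res_congr i l σ u a fun b hb => dif_pos (C.lt a b hb)

open Classical in
/-- The values `v` of the nodes satisfy the equations of the network, with the parameters `θ` and
the values `l` of the leaves. -/
def Cons (l : C.Node → Y → K) (θ : C.ix i → K) (v : C.Node → Y → K) : Prop :=
  ∀ a, C.Dep i a → ∀ u, v a u = match C.gate a with
    | .leaf _ => l a u
    | .lin S c _ => C.par i θ a 0 + ∑ b ∈ S.filter (fun b => C.Dep i b), c b * v b u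
    | .mul b c => (if C.Dep i b then v b u else C.par i θ a 0) *
        (if C.Dep i c then v c u else C.par i θ a 0)
    | .sym S _ => C.par i θ a
        ((S.filter (fun b => C.Dep i b)).filter (fun b => v b u ≠ 0)).card

open Classical in
/-- which values are not zero, for the nodes with `t a < k` -/
noncomputable def cut (t : C.Node → ℕ) (k : ℕ) (v : C.Node → Y → K) (a : C.Node) (u : Y) : Bool :=
  decide (C.Dep i a ∧ t a < k ∧ v a u ≠ 0)

/-- The values are given by the polynomials. -/
theorem val_poly (t : C.Node → ℕ) (ht : ∀ a, ∀ b ∈ (C.gate a).inputs, t b ≤ t a)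
    (ht2 : ∀ a S k, C.gate a = .sym S k → ∀ b ∈ S, t b < t a) (k : ℕ)
    (l : C.Node → Y → K) (θ : C.ix i → K) (v : C.Node → Y → K) (hc : C.Cons i l θ v) (u : Y) :
    ∀ (m : ℕ) (a : C.Node), C.lev a < m → C.Dep i a → t a ≤ k →
      v a u = MvPolynomial.eval θ (C.poly i l (C.cut i t k v) u a)
  | 0, a, h, _, _ => absurd h (Nat.not_lt_zero _)
  | m + 1, a, h, ha, hk => by
      classical
      have hin : ∀ b ∈ (C.gate a).inputs, C.Dep i b →
          v b u = MvPolynomial.eval θ (C.poly i l (C.cut i t k v) u b) := fun b hb hd =>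
        val_poly t ht ht2 k l θ v hc u m b (by have := C.lt a b hb; omega) hd
          ((ht a b hb).trans hk)
      rw [hc a ha u, C.poly_eq]
      unfold res
      cases hg : C.gate a with
      | leaf L => simp
      | lin S c e =>
        simp only [map_add, map_sum, map_mul, eval_C, C.eval_pX]
        congr 1
        refine sum_congr rfl fun b hb => ?_
        rw [mem_filter] at hb
        rw [hin b (by rw [hg]; exact hb.1) hb.2]
      | mul b c =>
        simp only [map_mul]
        have h1 : ∀ b', b' ∈ (C.gate a).inputs → (if C.Dep i b' then v b' u else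
            C.par i θ a 0) = MvPolynomial.eval θ (if C.Dep i b' then
              C.poly i l (C.cut i t k v) u b' else C.pX i a 0) := by
          intro b' hb'
          split_ifs with h
          · exact hin b' hb' h
          · rw [C.eval_pX]
        rw [h1 b (by rw [hg]; simp [Gate.inputs]), h1 c (by rw [hg]; simp [Gate.inputs])]
      | sym S k' =>
        simp only
        rw [C.eval_pX]
        congr 2
        refine filter_congr fun b hb => ?_
        rw [mem_filter] at hb
        unfold cut
        rw [decide_eq_true_iff]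
        constructor
        · intro h2
          exact ⟨hb.2, (ht2 a S k' hg b hb.1).trans_le hk, h2⟩
        · intro h2
          exact h2.2.2

/-- The degrees. -/
theorem degree_poly (δ : C.Node → ℕ) (h1 : ∀ a, 1 ≤ δ a)
    (h2 : ∀ a S c e, C.gate a = .lin S c e → ∀ b ∈ S, δ b ≤ δ a)
    (h3 : ∀ a b c, C.gate a = .mul b c → δ b + δ c ≤ δ a)
    (l : C.Node → Y → K) (σ : C.Node → Y → Bool) (u : Y) :
    ∀ (m : ℕ) (a : C.Node), C.lev a < m → (C.poly i l σ u a).totalDegree ≤ δ a
  | 0, a, h => absurd h (Nat.not_lt_zero _)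
  | m + 1, a, h => by
      classical
      have hin : ∀ b ∈ (C.gate a).inputs, (C.poly i l σ u b).totalDegree ≤ δ b := fun b hb =>
        degree_poly δ h1 h2 h3 l σ u m b (by have := C.lt a b hb; omega)
      rw [C.poly_eq]
      unfold res
      cases hg : C.gate a with
      | leaf L =>
        simp only [totalDegree_C]
        exact Nat.zero_le _
      | lin S c e =>
        simp only
        refine (totalDegree_add _ _).trans (max_le ((C.degree_pX i a 0).trans (h1 a)) ?_)
        refine totalDegree_finsetSum_le (d := δ a) fun b hb => ?_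
        rw [mem_filter] at hb
        refine (totalDegree_mul _ _).trans ?_
        rw [totalDegree_C, zero_add]
        exact (hin b (by rw [hg]; exact hb.1)).trans (h2 a S c e hg b hb.1)
      | mul b c =>
        simp only
        refine (totalDegree_mul _ _).trans ?_
        have h4 : ∀ b', b' ∈ (C.gate a).inputs →
            (if C.Dep i b' then C.poly i l σ u b' else C.pX i a 0).totalDegree ≤ δ b' := by
          intro b' hb'
          split_ifs
          · exact hin b' hb'
          · exact (C.degree_pX i a 0).trans (h1 b')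
        exact (Nat.add_le_add (h4 b (by rw [hg]; simp [Gate.inputs]))
          (h4 c (by rw [hg]; simp [Gate.inputs]))).trans (h3 a b c hg)
      | sym S k' =>
        simp only
        exact (C.degree_pX i a _).trans (h1 a)

open Classical in
/-- The number of the results of the zero tests at the next level. -/
theorem card_next [Fintype Y] (t : C.Node → ℕ) (δ : C.Node → ℕ) (g : ℕ) (h0 : 1 ≤ g)
    (h1 : ∀ a, 1 ≤ δ a ∧ δ a ≤ g)
    (h2 : ∀ a S c e, C.gate a = .lin S c e → ∀ b ∈ S, δ b ≤ δ a)
    (h3 : ∀ a b c, C.gate a = .mul b c → δ b + δ c ≤ δ a) (k s M : ℕ)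
    (hs : C.traffic i ≤ s) (hM : Fintype.card Y * s + 1 ≤ M)
    (l : C.Node → Y → K) (σ : C.Node → Y → Bool) :
    ∃ S : Finset (C.Node → Y → Bool), S.card ≤ (M * g) ^ (2 * C.traffic i) ∧
      ∀ θ : C.ix i → K, (fun a u => decide (a ∈ C.deps i ∧ t a < k + 1 ∧
        MvPolynomial.eval θ (C.poly i l σ u a) ≠ 0)) ∈ S := by
  classical
  obtain ⟨f, hf⟩ : ∃ f : C.deps i × Y → MvPolynomial (C.ix i) K, f = fun p =>
    C.poly i l σ p.2 p.1.1 := ⟨_, rfl⟩
  have hz := Pool.Agent.Y350.DGF.zero K (C.deps i × Y) (C.ix i) f g (fun p => by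
    rw [hf]
    exact (C.degree_poly i δ (fun a => (h1 a).1) h2 h3 l σ p.2 (C.lev p.1.1 + 1) p.1.1
      (Nat.lt_succ_self _)).trans (h1 _).2)
  obtain ⟨e, he⟩ : ∃ e : Set (C.deps i × Y) → C.Node → Y → Bool, e = fun Z a u =>
      decide (∃ h : a ∈ C.deps i, t a < k + 1 ∧ ((⟨a, h⟩, u) : C.deps i × Y) ∈ Z) := ⟨_, rfl⟩
  refine ⟨(Set.toFinite (Set.range (fun θ : C.ix i → K =>
    {v : C.deps i × Y | MvPolynomial.eval θ (f v) ≠ 0}))).toFinset.image e, ?_, fun θ => ?_⟩
  · refine card_image_le.trans ?_
    rw [← Set.ncard_eq_toFinset_card]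
    refine hz.trans ?_
    have h4 : Fintype.card (C.deps i × Y) * g + 1 ≤ M * g := by
      rw [Fintype.card_prod, Fintype.card_coe]
      have h5 : (C.deps i).card ≤ s := (C.card_deps_le i).trans hs
      calc (C.deps i).card * Fintype.card Y * g + 1 ≤ s * Fintype.card Y * g + 1 * g := by
            apply Nat.add_le_add
            · exact Nat.mul_le_mul_right _ (Nat.mul_le_mul_right _ h5)
            · omega
        _ = (Fintype.card Y * s + 1) * g := by ring
        _ ≤ M * g := Nat.mul_le_mul_right _ hM
    have h6 : 1 ≤ M * g := Nat.mul_pos (by omega) h0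
    calc (Fintype.card (C.deps i × Y) * g + 1) ^ Fintype.card (C.ix i)
        ≤ (M * g) ^ Fintype.card (C.ix i) := Nat.pow_le_pow_left h4 _
      _ ≤ _ := by
          apply Nat.pow_le_pow_right h6
          rw [Fintype.card_coe]
          exact C.card_ix_le i
  · rw [mem_image]
    refine ⟨{v : C.deps i × Y | MvPolynomial.eval θ (f v) ≠ 0}, ?_, ?_⟩
    · rw [Set.Finite.mem_toFinset]
      exact ⟨θ, rfl⟩
    · funext a u
      rw [he, hf]
      apply decide_eq_decide.2
      constructor
      · rintro ⟨h, h', h''⟩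
        exact ⟨h, h', h''⟩
      · rintro ⟨h, h', h''⟩
        exact ⟨h, h', h''⟩

open Classical in
/-- The zero patterns of the nodes. -/
theorem levels [Fintype Y] (t : C.Node → ℕ)
    (ht : ∀ a, ∀ b ∈ (C.gate a).inputs, t b ≤ t a)
    (ht2 : ∀ a S k, C.gate a = .sym S k → ∀ b ∈ S, t b < t a)
    (δ : C.Node → ℕ) (g : ℕ) (h0 : 1 ≤ g)
    (h1 : ∀ a, 1 ≤ δ a ∧ δ a ≤ g)
    (h2 : ∀ a S c e, C.gate a = .lin S c e → ∀ b ∈ S, δ b ≤ δ a)
    (h3 : ∀ a b c, C.gate a = .mul b c → δ b + δ c ≤ δ a) (s M : ℕ)
    (hs : C.traffic i ≤ s) (hM : Fintype.card Y * s + 1 ≤ M) (l : C.Node → Y → K) :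
    ∀ k : ℕ, ∃ 𝒮 : Finset (C.Node → Y → Bool),
      𝒮.card ≤ ((M * g) ^ (2 * C.traffic i)) ^ k ∧
      ∀ θ v, C.Cons i l θ v → C.cut i t k v ∈ 𝒮
  | 0 => by
      refine ⟨{fun _ _ => false}, by simp, fun θ v _ => ?_⟩
      rw [mem_singleton]
      funext a u
      unfold cut
      simp
  | k + 1 => by
      obtain ⟨𝒮, h4, h5⟩ := levels t ht ht2 δ g h0 h1 h2 h3 s M hs hM l k
      choose S hS1 hS2 using fun σ => C.card_next i t δ g h0 h1 h2 h3 k s M hs hM l σ
      refine ⟨𝒮.biUnion S, ?_, fun θ v hv => ?_⟩
      · refine card_biUnion_le.trans ?_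
        calc ∑ σ ∈ 𝒮, (S σ).card ≤ ∑ _σ ∈ 𝒮, (M * g) ^ (2 * C.traffic i) :=
              sum_le_sum fun σ _ => hS1 σ
          _ = 𝒮.card * (M * g) ^ (2 * C.traffic i) := by rw [sum_const, smul_eq_mul]
          _ ≤ _ := by
              rw [pow_succ]
              exact Nat.mul_le_mul_right _ h4
      · rw [mem_biUnion]
        refine ⟨C.cut i t k v, h5 θ v hv, ?_⟩
        have h6 := hS2 (C.cut i t k v) θ
        refine (congrArg (· ∈ S (C.cut i t k v)) ?_).mp h6
        funext a u
        unfold cut
        apply decide_eq_decide.2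
        rw [C.mem_deps]
        constructor
        · rintro ⟨ha, hk, h7⟩
          refine ⟨ha, hk, ?_⟩
          rw [C.val_poly i t ht ht2 k l θ v hv u (C.lev a + 1) a (Nat.lt_succ_self _) ha
            (Nat.le_of_lt_succ hk)]
          exact h7
        · rintro ⟨ha, hk, h7⟩
          refine ⟨ha, hk, ?_⟩
          rw [C.val_poly i t ht ht2 k l θ v hv u (C.lev a + 1) a (Nat.lt_succ_self _) ha
            (Nat.le_of_lt_succ hk)] at h7
          exact h7

end

end Net

end Run7.h413.FN
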