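import Pool.Agent.N452.TF.Defs

set_option autoImplicit false

/-! # Networks over a field whose gates share values

The nodes of a network carry elements of a field `K`, and the value of a node may be used by any
number of other nodes. The gates are weighted sums of any number of inputs, products of two inputs,
and symmetric zero tests. -/

namespace Run7.h413.FN

open Finset
open Pool.Agent.N452.TF (Leaf)

/-- Gates with inputs in `N`: leaves (arbitrary functions with values in `K` of one item of the
input, or of `w` words with `q` values, each of which is an arbitrary function of one item), weighted
sums, products of two values, and gates `sym` whose value is an arbitrary function of the number of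
the inputs which are not zero. -/
inductive Gate (K : Type) (ι : Type) (D : ι → Type) (w q : ℕ) (N : Type) : Type
  | leaf : Leaf ι D w q K → Gate K ι D w q N
  | lin : Finset N → (N → K) → K → Gate K ι D w q N
  | mul : N → N → Gate K ι D w q N
  | sym : Finset N → (ℕ → K) → Gate K ι D w q N

namespace Gate

variable {K : Type} [Field K] {ι : Type} {D : ι → Type} {w q : ℕ} {N : Type}

open Classical in
/-- The value of the gate on the input `x`, if the nodes have the values `v`. -/
noncomputable def eval : Gate K ι D w q N → (∀ i, D i) → (N → K) → K
  | leaf L, x, _ => L.val x
  | lin S a c, _, v => c + ∑ b ∈ S, a b * v b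
  | mul a b, _, v => v a * v b
  | sym S h, _, v => h (S.filter (fun b => v b ≠ 0)).card

/-- The inputs of the gate. -/
def inputs [DecidableEq N] : Gate K ι D w q N → Finset N
  | leaf _ => ∅
  | lin S _ _ => S
  | mul a b => {a, b}
  | sym S _ => S

/-- Is the gate a leaf which sees the item `i`? -/
def Sees (i : ι) : Gate K ι D w q N → Prop
  | leaf L => L.Sees {i}
  | lin _ _ _ => False
  | mul _ _ => False
  | sym _ _ => False

end Gate

/-- Networks: every node has a gate, whose inputs are nodes of smaller level. -/
structure Net (K : Type) (ι : Type) (D : ι → Type) (w q : ℕ) where
  /-- the nodes -/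
  Node : Type
  fin : Fintype Node
  dec : DecidableEq Node
  /-- the gates -/
  gate : Node → Gate K ι D w q Node
  /-- the levels -/
  lev : Node → ℕ
  lt : ∀ a, ∀ b ∈ (gate a).inputs, lev b < lev a
  /-- the output node -/
  out : Node

attribute [instance] Net.fin Net.dec

namespace Net

variable {K : Type} [Field K] {ι : Type} {D : ι → Type} {w q : ℕ}

/-- The value of the node `a` on the input `x` (all inputs of its gate have smaller levels). -/
noncomputable def val (C : Net K ι D w q) (x : ∀ i, D i) (a : C.Node) : K :=
  (C.gate a).eval x (fun b => if _ : C.lev b < C.lev a then C.val x b else 0)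
termination_by C.lev a

open Classical in
/-- The network accepts the input if the value of the output node is not zero. -/
noncomputable def eval (C : Net K ι D w q) (x : ∀ i, D i) : Bool := decide (C.val x C.out ≠ 0)

/-- The nodes which depend on the item `i`: the leaves which see it, and the nodes which have an
input that depends on it. -/
inductive Dep (C : Net K ι D w q) (i : ι) : C.Node → Prop
  | leaf {a : C.Node} : (C.gate a).Sees i → Dep C i a
  | wire {a b : C.Node} : b ∈ (C.gate a).inputs → Dep C i b → Dep C i a

/-- The zero tests are nested at most `h` times: there are numbers `t a ≤ h` which do not decrease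
along the wires, and which increase along the wires to the gates `sym`. -/
def TestDepthLE (C : Net K ι D w q) (h : ℕ) : Prop :=
  ∃ t : C.Node → ℕ, (∀ a, t a ≤ h) ∧ (∀ a, ∀ b ∈ (C.gate a).inputs, t b ≤ t a) ∧
    ∀ a S k, C.gate a = .sym S k → ∀ b ∈ S, t b < t a

/-- The formal degree is at most `g`: there are degrees between `1` and `g` such that the degree of
a weighted sum is at least that of its terms, and the degree of a product is at least the sum of
the degrees of the factors. (The degree of leaves and of zero tests is arbitrary.) -/
def DegreeLE (C : Net K ι D w q) (g : ℕ) : Prop :=
  ∃ δ : C.Node → ℕ, (∀ a, 1 ≤ δ a ∧ δ a ≤ g) ∧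
    (∀ a S c e, C.gate a = .lin S c e → ∀ b ∈ S, δ b ≤ δ a) ∧
    ∀ a b c, C.gate a = .mul b c → δ b + δ c ≤ δ a

open Classical in
/-- The readings of the item `i` (is the gate of `a` a leaf which sees it?) plus the wires from nodes
which depend on the item `i` to the node `a`. -/
noncomputable def rd (C : Net K ι D w q) (i : ι) (a : C.Node) : ℕ :=
  (if (C.gate a).Sees i then 1 else 0) + ((C.gate a).inputs.filter (fun b => C.Dep i b)).card

/-- The number of the leaves which see the item `i`, plus the number of the wires which leave a node
that depends on the item `i`. -/
noncomputable def traffic (C : Net K ι D w q) (i : ι) : ℕ := ∑ a, C.rd i a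

/-- The cost: the sum of the numbers `traffic` for the items in `I`. In other words: every wire is
charged with the number of the items in `I` on which its source depends, and every leaf with the
number of the items in `I` which it sees. -/
noncomputable def cost (C : Net K ι D w q) (I : Finset ι) : ℕ := ∑ i ∈ I, C.traffic i

end Net

end Run7.h413.FN
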