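import Pool.Agent.Run7.h413.FN.Sub
import Pool.Agent.Y638.RF.Lower

set_option autoImplicit false

/-! # The lower bound for random networks -/

namespace Run7.h413.FN

open Finset Pool.Agent.TH697.Form Pool.Agent.TH697.Row Pool.Agent.Y638.RF

variable {K : Type} [Field K] {ι : Type} {D : ι → Type} [DecidableEq ι] {w q : ℕ}

variable {T : Type} [Fintype T] {Ω : Type} [Fintype Ω]

/-- The lower bound for random networks whose zero tests are nested at most `h` times and whose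
formal degree is at most `g`. -/
theorem net_lower (μ : Ω → ℝ) (hμ : IsProb μ) (s : ℕ) (C : Ω → Net K ι D w q)
    (P : (∀ i, D i) → Prop) (f : (∀ i, D i) → Bool)
    (hF : ApproximatesOn μ (fun ω => (C ω).eval) P f)
    (hq : 1 ≤ q) (hw : 1 ≤ w) (t g : ℕ) (hg : 1 ≤ g) (hT : ∀ ω, (C ω).TestDepthLE t)
    (hG : ∀ ω, (C ω).DegreeLE g) (J M : ℕ) (hM : J * s + 1 ≤ M) (δ : ℝ)
    (I : Finset ι) (hs : ∀ ω, (C ω).cost I ≤ s) (h : ∀ i ∈ I, Asks T J δ P f i) :
    (I.card : ℝ) * ((49 / 600 - δ) * Fintype.card T - 1) ≤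
      (2 * (t + 1) * (Real.logb 2 M + Real.logb 2 g) + (w - 1) * Real.logb 2 q) * s := by
  classical
  have h6 : (0 : ℝ) < Real.log 2 := Real.log_pos (by norm_num)
  have hlq : 0 ≤ Real.log (q : ℝ) := Real.log_nonneg (by exact_mod_cast hq)
  have hlM : 0 ≤ Real.log (M : ℝ) := Real.log_nonneg (by exact_mod_cast (by omega : 1 ≤ M))
  have hlg : 0 ≤ Real.log (g : ℝ) := Real.log_nonneg (by exact_mod_cast hg)
  have hw' : ((w - 1 : ℕ) : ℝ) = (w : ℝ) - 1 := by
    rw [Nat.cast_sub hw, Nat.cast_one]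
  have hw1 : (0 : ℝ) ≤ (w : ℝ) - 1 := by rw [← hw']; positivity
  obtain ⟨E, hE⟩ : ∃ E, E = q ^ (w - 1) * (M * g) ^ (2 * (t + 1)) := ⟨_, rfl⟩
  obtain ⟨c, hc⟩ : ∃ c : ℝ, c = (w - 1) * Real.log q +
      2 * (t + 1) * (Real.log M + Real.log g) := ⟨_, rfl⟩
  have hd0 : (0 : ℝ) ≤ t := Nat.cast_nonneg t
  have hc0 : 0 ≤ c := by rw [hc]; positivity
  have hM' : (0 : ℝ) < M := by exact_mod_cast (by omega : 0 < M)
  have hq' : (0 : ℝ) < q := by exact_mod_cast hq
  have hg' : (0 : ℝ) < g := by exact_mod_cast hg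
  have hEpos : (0 : ℝ) < E := by
    rw [hE]
    push_cast
    positivity
  have hcE : c = Real.log E := by
    rw [hc, hE]
    push_cast
    rw [Real.log_mul (by positivity) (by positivity), Real.log_pow, Real.log_pow,
      Real.log_mul (by positivity) (by positivity), hw']
    push_cast
    ring
  have htr : ∀ ω, ∀ i ∈ I, (C ω).traffic i ≤ s := fun ω i hi =>
    (single_le_sum (f := fun i => (C ω).traffic i) (fun _ _ => Nat.zero_le _) hi).trans (hs ω)
  have h1 : ∀ i ∈ I, (49 / 600 - δ) * Fintype.card T * Real.log 2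
      ≤ ∑ ω, μ ω * (Real.log 2 + c * ((C ω).traffic i : ℝ)) := by
    intro i hi
    obtain ⟨A, r, Q, R, hA, hQA, hQ, hP, hf⟩ := h i hi
    obtain ⟨y, hy⟩ : ∃ y : {d // d ∈ A} → D i, y = fun v => v.1 := ⟨_, rfl⟩
    have hM' : Fintype.card {d // d ∈ A} * s + 1 ≤ M := by
      rw [Fintype.card_coe]
      have : A.card * s ≤ J * s := Nat.mul_le_mul_right _ hA
      omega
    choose S hS1 hS2 using fun ω =>
      (C ω).subfunctions i y t g s M E hq (hT ω) (hG ω) (htr ω i hi) hM' hE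
    refine (gen_err μ hμ (fun ω => (C ω).eval) P f hF i y S (fun ω z => hS2 ω z) r
      (fun v z => ⟨Q v z, hQA v z⟩) (fun v z z' hz => Subtype.ext (hQ v z z' hz)) R
      (fun v z => by rw [hy]; exact hP v z) δ (by rw [hy]; exact hf)).trans ?_
    apply sum_le_sum
    intro ω _
    apply mul_le_mul_of_nonneg_left _ (hμ.nonneg ω)
    have hne : 1 ≤ (S ω).card := card_pos.2 ⟨_, hS2 ω (R (fun _ => false))⟩
    have h2 : ((S ω).card : ℝ) ≤ 2 * (E : ℝ) ^ (C ω).traffic i := by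
      exact_mod_cast hS1 ω
    have h4 := Real.log_le_log (by exact_mod_cast hne) h2
    rw [Real.log_mul (by norm_num) (by positivity), Real.log_pow, ← hcE] at h4
    linarith
  have h2 := sum_le_sum h1
  rw [sum_const, nsmul_eq_mul, sum_comm] at h2
  have h3 : ∑ ω, ∑ i ∈ I, μ ω * (Real.log 2 + c * ((C ω).traffic i : ℝ)) ≤
      I.card * Real.log 2 + c * s := by
    have e1 : (I.card : ℝ) * Real.log 2 + c * s =
        ∑ ω, μ ω * (I.card * Real.log 2 + c * s) := by
      rw [← sum_mul, hμ.sum_one, one_mul]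
    rw [e1]
    apply sum_le_sum
    intro ω _
    rw [← mul_sum]
    apply mul_le_mul_of_nonneg_left _ (hμ.nonneg ω)
    rw [sum_add_distrib, sum_const, nsmul_eq_mul, ← mul_sum]
    have h5 : ∑ i ∈ I, ((C ω).traffic i : ℝ) ≤ s := by
      have h8 : ∑ i ∈ I, (C ω).traffic i ≤ s := hs ω
      exact_mod_cast h8
    have h7 := mul_le_mul_of_nonneg_left h5 hc0
    linarith
  have h4 := h2.trans h3
  have h7 : (2 * (t + 1) * (Real.logb 2 M + Real.logb 2 g) + (w - 1) * Real.logb 2 q) * s * Real.log 2 =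
      c * s := by
    rw [hc, Real.logb, Real.logb, Real.logb]
    field_simp
    ring
  have h5 : (I.card : ℝ) * ((49 / 600 - δ) * Fintype.card T - 1) * Real.log 2 ≤
      (2 * (t + 1) * (Real.logb 2 M + Real.logb 2 g) + (w - 1) * Real.logb 2 q) * s * Real.log 2 := by
    rw [h7]
    linarith
  exact le_of_mul_le_mul_right h5 h6

end Run7.h413.FN
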