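import Pool.Agent.Run7.h413.FN.Core

set_option autoImplicit false

/-! # Few subfunctions of networks over a field whose gates share values: the count -/

namespace Run7.h413.FN

open Finset MvPolynomial
open Pool.Agent.N452.TF (Leaf ovr ovr_of_mem ovr_of_not)

variable {K : Type} [Field K] {ι : Type} {D : ι → Type} {w q : ℕ}

namespace Net

variable [DecidableEq ι] (C : Net K ι D w q) (i : ι) {Y : Type}

open Classical in
/-- the values of the leaves -/
noncomputable def lf (y : Y → D i) (z : ∀ i, D i) (a : C.Node) (u : Y) : K :=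
  match C.gate a with
  | .leaf L => if L.Sees {i} then L.val (Function.update z i (y u)) else 0
  | _ => 0

theorem lf_family (hq : 1 ≤ q) (y : Y → D i) (z0 : ∀ i, D i) (a : C.Node) :
    ∃ F : Finset (Y → K), F.card ≤ (q ^ (w - 1)) ^ C.rd i a ∧ ∀ z, C.lf i y z a ∈ F := by
  classical
  have hq1 : 1 ≤ q ^ (w - 1) := Nat.one_le_pow _ _ hq
  by_cases hL : ∃ L, C.gate a = .leaf L ∧ L.Sees {i}
  · obtain ⟨L, hg, hs⟩ := hL
    obtain ⟨κ, _, f, hκ, hf⟩ := L.family hq {i} (fun u => Function.update z0 i (y u)) hs
    refine ⟨univ.image f, ?_, fun z => ?_⟩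
    · refine card_image_le.trans ?_
      rw [card_univ]
      refine hκ.trans ?_
      have h1 : 1 ≤ C.rd i a := rd_pos (.leaf (by rw [hg]; exact hs))
      calc q ^ (w - 1) = (q ^ (w - 1)) ^ 1 := (pow_one _).symm
        _ ≤ _ := Nat.pow_le_pow_right hq1 h1
    · obtain ⟨k, hk⟩ := hf z
      rw [mem_image]
      refine ⟨k, mem_univ _, ?_⟩
      rw [← hk]
      funext u
      unfold lf
      rw [hg]
      simp only [if_pos hs]
      congr 1
      funext b
      by_cases hb : b ∈ ({i} : Set ι)
      · rw [ovr_of_mem hb]
        have hb' : b = i := hb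
        subst hb'
        rw [Function.update_self, Function.update_self]
      · rw [ovr_of_not hb]
        exact (Function.update_of_ne hb _ _).symm
  · refine ⟨{fun _ => 0}, ?_, fun z => ?_⟩
    · rw [card_singleton]
      exact Nat.one_le_pow _ _ hq1
    · rw [mem_singleton]
      funext u
      unfold lf
      cases hg : C.gate a with
      | leaf L =>
        simp only
        rw [if_neg fun hs => hL ⟨L, hg, hs⟩]
      | lin S c e => rfl
      | mul b c => rfl
      | sym S k => rfl

open Classical in
/-- the parameters which belong to the other items -/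
noncomputable def pv (z : ∀ i, D i) (a : C.Node) (j : ℕ) : K :=
  match C.gate a with
  | .leaf _ => 0
  | .lin S c e => e + ∑ b ∈ S.filter (fun b => ¬ C.Dep i b), c b * C.val z b
  | .mul b c => if C.Dep i b then C.val z c else C.val z b
  | .sym S k => k (((S.filter (fun b => ¬ C.Dep i b)).filter (fun b => C.val z b ≠ 0)).card + j)

theorem par_eq (z : ∀ i, D i) {a : C.Node} {j : ℕ} (ha : C.Dep i a) (hj : j < C.rd i a + 1) :
    C.par i (fun p => C.pv i z p.1.1 p.1.2) a j = C.pv i z a j := by
  unfold par
  rw [dif_pos ((C.mem_ix i).2 ⟨ha, hj⟩)]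

theorem cons (y : Y → D i) (z : ∀ i, D i) :
    C.Cons i (C.lf i y z) (fun p => C.pv i z p.1.1 p.1.2)
      (fun a u => C.val (Function.update z i (y u)) a) := by
  classical
  intro a ha u
  obtain ⟨x, hx⟩ : ∃ x, x = Function.update z i (y u) := ⟨_, rfl⟩
  have hn : ∀ b, ¬ C.Dep i b → C.val x b = C.val z b := fun b hb => by
    rw [hx]
    exact val_of_not_dep C i (y u) z (C.lev b + 1) b (Nat.lt_succ_self _) hb
  have h0 : C.par i (fun p => C.pv i z p.1.1 p.1.2) a 0 = C.pv i z a 0 :=
    C.par_eq i z ha (Nat.succ_pos _)
  simp only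
  rw [← hx, val_eq]
  cases hg : C.gate a with
  | leaf L =>
    have hs : L.Sees {i} := by
      cases ha with
      | leaf h =>
        rw [hg] at h
        exact h
      | wire hb hd =>
        rw [hg] at hb
        exact absurd hb (by simp [Gate.inputs])
    simp only [Gate.eval, lf, hg, if_pos hs]
    rw [← hx]
  | lin S c e =>
    simp only [Gate.eval]
    rw [h0, ← sum_filter_add_sum_filter_not S (fun b => C.Dep i b)]
    simp only [pv, hg]
    have h1 : ∑ b ∈ S.filter (fun b => ¬ C.Dep i b), c b * C.val x b =
        ∑ b ∈ S.filter (fun b => ¬ C.Dep i b), c b * C.val z b :=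
      sum_congr rfl fun b hb => by rw [hn b (mem_filter.1 hb).2]
    rw [h1]
    ring
  | mul b c =>
    simp only [Gate.eval]
    rw [h0]
    simp only [pv, hg]
    by_cases hb : C.Dep i b
    · by_cases hc : C.Dep i c
      · simp only [if_pos hb, if_pos hc]
      · simp only [if_pos hb, if_neg hc]
        rw [hn c hc]
    · by_cases hc : C.Dep i c
      · simp only [if_neg hb, if_pos hc]
        rw [hn b hb]
      · exfalso
        cases ha with
        | leaf h =>
          rw [hg] at h
          exact h
        | wire hb' hd =>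
          rw [hg] at hb'
          simp only [Gate.inputs, mem_insert, mem_singleton] at hb'
          rcases hb' with rfl | rfl
          · exact hb hd
          · exact hc hd
  | sym S k =>
    simp only [Gate.eval]
    have h1 : ((S.filter (fun b => C.Dep i b)).filter (fun b => C.val x b ≠ 0)).card <
        C.rd i a + 1 := by
      refine Nat.lt_succ_of_le ((card_filter_le _ _).trans ?_)
      have h2 := C.card_din_le i a
      unfold din at h2
      rw [hg] at h2
      exact h2
    rw [C.par_eq i z ha h1]
    simp only [pv, hg]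
    congr 1
    have h2 : S.filter (fun b => C.val x b ≠ 0) =
        (S.filter (fun b => ¬ C.Dep i b)).filter (fun b => C.val z b ≠ 0) ∪
        (S.filter (fun b => C.Dep i b)).filter (fun b => C.val x b ≠ 0) := by
      ext b
      simp only [mem_filter, mem_union]
      by_cases h : C.Dep i b
      · simp [h]
      · simp [h, hn b h]
    rw [h2, card_union_of_disjoint]
    rw [disjoint_left]
    intro b hb hb'
    simp only [mem_filter] at hb hb'
    exact hb.1.2 hb'.1.2

/-- Few subfunctions. -/
theorem subfunctions [Fintype Y] (y : Y → D i) (h g s M E : ℕ) (hq : 1 ≤ q)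
    (hT : C.TestDepthLE h) (hG : C.DegreeLE g) (hs : C.traffic i ≤ s)
    (hM : Fintype.card Y * s + 1 ≤ M)
    (hE : E = q ^ (w - 1) * (M * g) ^ (2 * (h + 1))) :
    ∃ S : Finset (Y → Bool), S.card ≤ 2 * E ^ C.traffic i ∧
      ∀ z : (∀ i, D i), (fun u => C.eval (Function.update z i (y u))) ∈ S := by
  classical
  obtain ⟨t, ht0, ht, ht2⟩ := hT
  obtain ⟨δ, h1, h2, h3⟩ := hG
  have h0 : 1 ≤ g := (h1 C.out).1.trans (h1 C.out).2
  have hMg : 1 ≤ M * g := Nat.mul_pos (by omega) h0
  have hE1 : 1 ≤ E := by
    rw [hE]
    exact Nat.mul_pos (Nat.pow_pos hq) (Nat.pow_pos hMg)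
  have hEt : 1 ≤ E ^ C.traffic i := Nat.one_le_pow _ _ hE1
  by_cases ho : C.Dep i C.out
  · by_cases hne : Nonempty (∀ i, D i)
    · obtain ⟨z0⟩ := hne
      choose F hF1 hF2 using fun a => C.lf_family i hq y z0 a
      choose S hS1 hS2 using fun l : C.Node → Y → K =>
        C.levels i t ht ht2 δ g h0 h1 h2 h3 s M hs hM l (h + 1)
      refine ⟨(Fintype.piFinset F).biUnion (fun l => (S l).image (fun σ u => σ C.out u)), ?_,
        fun z => ?_⟩
      · refine card_biUnion_le.trans ?_
        have h4 : (Fintype.piFinset F).card ≤ (q ^ (w - 1)) ^ C.traffic i := by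
          rw [Fintype.card_piFinset]
          calc ∏ a, (F a).card ≤ ∏ a, (q ^ (w - 1)) ^ C.rd i a :=
                prod_le_prod' fun a _ => hF1 a
            _ = _ := by
                rw [prod_pow_eq_pow_sum]
                rfl
        calc ∑ l ∈ Fintype.piFinset F, ((S l).image (fun σ u => σ C.out u)).card
            ≤ ∑ _l ∈ Fintype.piFinset F, ((M * g) ^ (2 * C.traffic i)) ^ (h + 1) :=
              sum_le_sum fun l _ => card_image_le.trans (hS1 l)
          _ = (Fintype.piFinset F).card * ((M * g) ^ (2 * C.traffic i)) ^ (h + 1) := by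
              rw [sum_const, smul_eq_mul]
          _ ≤ (q ^ (w - 1)) ^ C.traffic i * ((M * g) ^ (2 * C.traffic i)) ^ (h + 1) :=
              Nat.mul_le_mul_right _ h4
          _ = E ^ C.traffic i := by
              rw [hE, mul_pow (q ^ (w - 1)), ← pow_mul (M * g), ← pow_mul (M * g)]
              congr 2
              ring
          _ ≤ _ := by omega
      · rw [mem_biUnion]
        refine ⟨C.lf i y z, ?_, ?_⟩
        · rw [Fintype.mem_piFinset]
          exact fun a => hF2 a z
        · rw [mem_image]
          refine ⟨_, hS2 (C.lf i y z) _ _ (C.cons i y z), ?_⟩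
          funext u
          unfold cut eval
          apply decide_eq_decide.2
          constructor
          · intro h4
            exact h4.2.2
          · intro h4
            exact ⟨ho, Nat.lt_succ_of_le (ht0 _), h4⟩
    · exact ⟨∅, by simp, fun z => absurd ⟨z⟩ hne⟩
  · refine ⟨(univ : Finset Bool).image (fun c => fun _ => c), ?_, fun z => ?_⟩
    · refine card_image_le.trans ?_
      rw [card_univ, Fintype.card_bool]
      omega
    · rw [mem_image]
      refine ⟨C.eval z, mem_univ _, ?_⟩
      funext u
      unfold eval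
      rw [val_of_not_dep C i (y u) z (C.lev C.out + 1) C.out (Nat.lt_succ_self _) ho]

end Net

end Run7.h413.FN
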